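import Pool.Agent.H71.GT.Spl
import Pool.Agent.H38.ML.Spec

/-!
# [H71 GT TOW] MP_b39724_nt, LowerBound v2: `GoodTower` for the commutator subgroup of a solvable normal subgroup

`goodTower_comm`: `T` a solvable normal subgroup of the finite group `G`, all `q`-subgroups of `G` commutative for the primes `q` which divide the order of `⁅T, T⁆`: then `GoodTower ⁅T, T⁆`.
-/

set_option autoImplicit false

open scoped Classical IsMulCommutative commutatorElement

noncomputable section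

namespace H71.GT

open H38.ML.Spec

variable {G : Type} [Group G] {q : ℕ}

theorem gt_bot : GoodTower (⊥ : Subgroup G) :=
  ⟨0, fun _ => ⊥, rfl, rfl, fun _ hi => absurd hi (Nat.not_lt_zero _)⟩

theorem gt_cons {N L : Subgroup G} (hLN : L ≤ N) (hL : L.Normal) (hc : ⁅N, N⁆ ≤ L)
    (h : (∃ C : Subgroup G, C ⊔ N = ⊤ ∧ C ⊓ N = L) ∧
      ∃ Z : Subgroup G, (∀ g ∈ Z, ∀ x ∈ N, g * x * g⁻¹ * x⁻¹ ∈ L) ∧
        Nat.Coprime Z.index (L.relIndex N)) (hG : GoodTower L) : GoodTower N := by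
  obtain ⟨r, F, h0, h1, h2⟩ := hG
  subst h0
  refine ⟨r + 1, fun i => Nat.casesOn i N F, rfl, h1, fun i hi => ?_⟩
  cases i with
  | zero =>
    exact ⟨hLN, hL, hc, Or.inr h⟩
  | succ i => exact h2 i (by omega)

section layer

variable (D : Subgroup G) [D.Normal]

/-- the elements of `D` whose `q`-part modulo the commutator subgroup is trivial -/
abbrev Rq (q : ℕ) : Subgroup G := pp q D ⁅D, D⁆ le_rfl

instance Rq_normal : (Rq D q).Normal := pp_normal D ⁅D, D⁆ le_rfl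

theorem pow_mem_Rq [Finite G] (hq : q.Prime) {x : G} (hx : x ∈ D) :
    ∃ k n : ℕ, Nat.Coprime n q ∧ x ^ q ^ k ∈ Rq D q ∧ x ^ (q ^ k * n) ∈ ⁅D, D⁆ := by
  have hN : orderOf (QuotientGroup.mk (s := ⁅D, D⁆) x) ≠ 0 := (orderOf_pos _).ne'
  obtain ⟨k, n', hn', hk⟩ := Nat.exists_eq_pow_mul_and_not_dvd hN q hq.one_lt.ne'
  have hn : Nat.Coprime n' q := by
    rw [Nat.coprime_comm]
    exact (Nat.Prime.coprime_iff_not_dvd hq).2 hn'
  have h1 : x ^ (q ^ k * n') ∈ ⁅D, D⁆ := by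
    rw [← QuotientGroup.eq_one_iff, QuotientGroup.mk_pow, ← hk]
    exact pow_orderOf_eq_one _
  exact ⟨k, n', hn, ⟨D.pow_mem hx _, n', hn, by rwa [← pow_mul]⟩, h1⟩

theorem map_pgroup [Finite G] (hq : q.Prime) :
    IsPGroup q (D.map (QuotientGroup.mk' (Rq D q)) : Subgroup (G ⧸ Rq D q)) := by
  rintro ⟨_, x, hx, rfl⟩
  obtain ⟨k, n, hn, h1, -⟩ := pow_mem_Rq D hq hx
  refine ⟨k, ?_⟩
  apply Subtype.ext
  rw [Subgroup.coe_pow, Subgroup.coe_one, ← map_pow]
  exact (QuotientGroup.eq_one_iff _).2 h1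

end layer

/-- the complement -/
theorem exists_compl [Finite G] (hq : q.Prime) (hab : AbS q G) (M : Subgroup G) [M.Normal] :
    ∃ C : Subgroup G, C ⊔ ⁅M, M⁆ = ⊤ ∧ C ⊓ ⁅M, M⁆ = Rq ⁅M, M⁆ q := by
  have : Fact q.Prime := ⟨hq⟩
  obtain ⟨π, hπ⟩ : ∃ π : G →* G ⧸ Rq ⁅M, M⁆ q, π = QuotientGroup.mk' (Rq ⁅M, M⁆ q) := ⟨_, rfl⟩
  have hsur : Function.Surjective π := by
    rw [hπ]
    exact QuotientGroup.mk'_surjective _
  have hker : ∀ x, π x = 1 ↔ x ∈ Rq ⁅M, M⁆ q := fun x => by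
    rw [hπ]
    exact QuotientGroup.eq_one_iff x
  have hn : (M.map π).Normal := Subgroup.Normal.map inferInstance π hsur
  have hmc : (⁅M, M⁆ : Subgroup G).map π = ⁅M.map π, M.map π⁆ := Subgroup.map_commutator M M π
  have hp : IsPGroup q (⁅M.map π, M.map π⁆ : Subgroup (G ⧸ Rq ⁅M, M⁆ q)) := by
    rw [← hmc, hπ]
    exact map_pgroup ⁅M, M⁆ hq
  obtain ⟨C, hC1, hC2⟩ := spl (hab.quot _) (M.map π) hp
  rw [← hmc] at hC1 hC2
  refine ⟨C.comap π, ?_, ?_⟩
  · rw [eq_top_iff]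
    intro g _
    have h1 : π g ∈ C ⊔ (⁅M, M⁆ : Subgroup G).map π := by
      rw [hC1]
      exact Subgroup.mem_top _
    have : ((⁅M, M⁆ : Subgroup G).map π).Normal := Subgroup.Normal.map inferInstance π hsur
    obtain ⟨c, hc, d, hd, e⟩ := Subgroup.mem_sup_of_normal_right.1 h1
    obtain ⟨y, hy, rfl⟩ := hd
    obtain ⟨x, rfl⟩ := hsur c
    have h2 : g * y⁻¹ ∈ C.comap π := by
      show π (g * y⁻¹) ∈ C
      rw [map_mul, map_inv, ← e, mul_inv_cancel_right]
      exact hc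
    have h3 : g = g * y⁻¹ * y := by group
    rw [h3]
    exact Subgroup.mul_mem _ (Subgroup.mem_sup_left h2) (Subgroup.mem_sup_right hy)
  · apply le_antisymm
    · rintro x ⟨hx, hx2⟩
      rw [← hker, ← Subgroup.mem_bot, ← hC2]
      exact ⟨hx, Subgroup.mem_map_of_mem _ hx2⟩
    · intro x hx
      refine ⟨?_, hx.1⟩
      show π x ∈ C
      rw [(hker x).2 hx]
      exact C.one_mem

/-- the centraliser of the factor -/
theorem exists_cent [Finite G] (hq : q.Prime) (hab : AbS q G) (D : Subgroup G) [D.Normal] :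
    ∃ Z : Subgroup G, (∀ g ∈ Z, ∀ x ∈ D, g * x * g⁻¹ * x⁻¹ ∈ Rq D q) ∧ ¬ q ∣ Z.index := by
  have : Fact q.Prime := ⟨hq⟩
  obtain ⟨π, hπ⟩ : ∃ π : G →* G ⧸ Rq D q, π = QuotientGroup.mk' (Rq D q) := ⟨_, rfl⟩
  have hsur : Function.Surjective π := by
    rw [hπ]
    exact QuotientGroup.mk'_surjective _
  have hker : ∀ x, π x = 1 ↔ x ∈ Rq D q := fun x => by
    rw [hπ]
    exact QuotientGroup.eq_one_iff x
  have hn : (D.map π).Normal := Subgroup.Normal.map inferInstance π hsur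
  have hp : IsPGroup q (D.map π) := by
    rw [hπ]
    exact map_pgroup D hq
  refine ⟨(Subgroup.centralizer (D.map π : Set (G ⧸ Rq D q))).comap π, ?_, ?_⟩
  · intro g hg x hx
    rw [← hker, map_mul, map_mul, map_mul, map_inv, map_inv]
    have h1 : π x * π g = π g * π x :=
      Subgroup.mem_centralizer_iff.1 hg _ (Subgroup.mem_map_of_mem _ hx)
    rw [← h1, mul_inv_cancel_right, mul_inv_cancel]
  · obtain ⟨P⟩ : Nonempty (Sylow q G) := inferInstance
    have hPb := (P.mapSurjective hsur).2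
    rw [Sylow.coe_mapSurjective] at hPb
    have h0 : (P : Subgroup G).map π ⊔ D.map π = (P : Subgroup G).map π := by
      have h1 := (P.mapSurjective hsur).is_maximal'
        (Q := (P : Subgroup G).map π ⊔ D.map π) (IsPGroup.to_sup_of_normal_right hPb hp)
        (by rw [Sylow.coe_mapSurjective]; exact le_sup_left)
      rw [Sylow.coe_mapSurjective] at h1
      exact h1
    have hle : (P : Subgroup G) ≤
        (Subgroup.centralizer (D.map π : Set (G ⧸ Rq D q))).comap π := by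
      intro g hg
      rw [Subgroup.mem_comap, Subgroup.mem_centralizer_iff]
      intro y hy
      have hy' : y ∈ (P : Subgroup G).map π := by
        rw [← h0]
        exact Subgroup.mem_sup_right hy
      exact hab.quot _ _ hPb y hy' _ (Subgroup.mem_map_of_mem _ hg)
    intro h2
    exact P.not_dvd_index (h2.trans (Subgroup.index_dvd_of_le hle))

/-- the elements of `D` whose `q`-parts modulo the commutator subgroup are trivial for `q ∈ s` -/
def Ls (D : Subgroup G) [D.Normal] (s : Finset ℕ) : Subgroup G := D ⊓ ⨅ q ∈ s, Rq D q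

theorem mem_Ls {D : Subgroup G} [D.Normal] {s : Finset ℕ} {x : G} :
    x ∈ Ls D s ↔ x ∈ D ∧ ∀ q ∈ s, x ∈ Rq D q := by
  unfold Ls
  rw [Subgroup.mem_inf, Subgroup.mem_iInf]
  simp only [Subgroup.mem_iInf]

instance Ls_normal (D : Subgroup G) [D.Normal] (s : Finset ℕ) : (Ls D s).Normal := by
  refine ⟨fun x hx g => ?_⟩
  rw [mem_Ls] at hx ⊢
  exact ⟨(inferInstance : D.Normal).conj_mem x hx.1 g, fun q hq =>
    (Rq_normal D).conj_mem x (hx.2 q hq) g⟩

theorem comm_le_Rq (D : Subgroup G) [D.Normal] : ⁅D, D⁆ ≤ Rq D q := fun x hx =>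
  ⟨Subgroup.commutator_le_left D D hx, 1, Nat.coprime_one_left q, by rwa [pow_one]⟩

theorem comm_le_Ls (D : Subgroup G) [D.Normal] (s : Finset ℕ) : ⁅D, D⁆ ≤ Ls D s := fun _ hx =>
  mem_Ls.2 ⟨Subgroup.commutator_le_left D D hx, fun _ _ => comm_le_Rq D hx⟩

/-- one layer -/
theorem gt_layer [Finite G] {s : Finset ℕ} (hs : ∀ q ∈ s, q.Prime) (hq : q.Prime) (hqs : q ∉ s)
    (hab : AbS q G) (M : Subgroup G) [M.Normal] (h : GoodTower (Ls ⁅M, M⁆ (insert q s))) :
    GoodTower (Ls ⁅M, M⁆ s) := by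
  have : Fact q.Prime := ⟨hq⟩
  obtain ⟨D, hD⟩ : ∃ D : Subgroup G, D = ⁅M, M⁆ := ⟨_, rfl⟩
  obtain ⟨C, hC1, hC2⟩ := exists_compl hq hab M
  obtain ⟨Z, hZ1, hZ2⟩ := exists_cent hq hab ⁅M, M⁆
  have hle : Ls ⁅M, M⁆ (insert q s) ≤ Ls ⁅M, M⁆ s := fun x hx =>
    mem_Ls.2 ⟨(mem_Ls.1 hx).1, fun r hr => (mem_Ls.1 hx).2 r (Finset.mem_insert_of_mem hr)⟩
  have hLD : Ls ⁅M, M⁆ s ≤ ⁅M, M⁆ := fun x hx => (mem_Ls.1 hx).1
  refine gt_cons hle inferInstance
    ((Subgroup.commutator_mono hLD hLD).trans (comm_le_Ls _ _)) ⟨⟨C, ?_, ?_⟩, Z, ?_, ?_⟩ h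
  · rw [eq_top_iff, ← hC1]
    refine sup_le le_sup_left fun x hx => ?_
    obtain ⟨k, n, hn, h1, h2⟩ := pow_mem_Rq ⁅M, M⁆ hq hx
    have h3 : x ^ q ^ k ∈ C := by
      have h4 : x ^ q ^ k ∈ C ⊓ ⁅M, M⁆ := by
        rw [hC2]
        exact h1
      exact h4.1
    have h5 : x ^ n ∈ Ls ⁅M, M⁆ s := by
      rw [mem_Ls]
      refine ⟨Subgroup.pow_mem _ hx n, fun r hr => ⟨Subgroup.pow_mem _ hx n, q ^ k, ?_, ?_⟩⟩
      · refine Nat.Coprime.pow_left _ ((Nat.coprime_primes hq (hs r hr)).2 ?_)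
        rintro rfl
        exact hqs hr
      · rw [← pow_mul, mul_comm]
        exact h2
    have hco : Nat.Coprime (q ^ k) n := Nat.Coprime.pow_left _ hn.symm
    obtain ⟨a, b, hab'⟩ := Nat.isCoprime_iff_coprime.2 hco
    have h6 : x = (x ^ q ^ k) ^ a * (x ^ n) ^ b := by
      rw [← zpow_natCast, ← zpow_natCast, ← zpow_mul, ← zpow_mul, ← zpow_add, mul_comm _ a,
        mul_comm _ b, hab', zpow_one]
    rw [h6]
    exact Subgroup.mul_mem _ (Subgroup.mem_sup_left (C.zpow_mem h3 _))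
      (Subgroup.mem_sup_right (Subgroup.zpow_mem _ h5 _))
  · apply le_antisymm
    · rintro x ⟨hx, hx2⟩
      have h1 : x ∈ C ⊓ ⁅M, M⁆ := ⟨hx, hLD hx2⟩
      rw [hC2] at h1
      rw [mem_Ls]
      refine ⟨hLD hx2, fun r hr => ?_⟩
      rcases Finset.mem_insert.1 hr with rfl | hr
      · exact h1
      · exact (mem_Ls.1 hx2).2 r hr
    · intro x hx
      have h1 : x ∈ C ⊓ ⁅M, M⁆ := by
        rw [hC2]
        exact (mem_Ls.1 hx).2 q (Finset.mem_insert_self _ _)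
      exact ⟨h1.1, hle hx⟩
  · intro g hg x hx
    have h1 := hZ1 g hg x (hLD hx)
    have h2 : g * x * g⁻¹ * x⁻¹ ∈ Ls ⁅M, M⁆ s :=
      Subgroup.mul_mem _ ((Ls_normal ⁅M, M⁆ s).conj_mem x hx g) (Subgroup.inv_mem _ hx)
    rw [mem_Ls] at h2 ⊢
    refine ⟨h2.1, fun r hr => ?_⟩
    rcases Finset.mem_insert.1 hr with rfl | hr
    · exact h1
    · exact h2.2 r hr
  · -- the order of the factor is a power of `q`
    have h1 : IsPGroup q (↥(Ls ⁅M, M⁆ s) ⧸ (Ls ⁅M, M⁆ (insert q s)).subgroupOf (Ls ⁅M, M⁆ s)) := by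
      intro y
      obtain ⟨x, rfl⟩ := QuotientGroup.mk_surjective y
      obtain ⟨k, n, hn, h1, h2⟩ := pow_mem_Rq ⁅M, M⁆ hq (hLD x.2)
      refine ⟨k, ?_⟩
      rw [← QuotientGroup.mk_pow, QuotientGroup.eq_one_iff, Subgroup.mem_subgroupOf, mem_Ls]
      refine ⟨hLD (x ^ q ^ k).2, fun r hr => ?_⟩
      rcases Finset.mem_insert.1 hr with rfl | hr
      · exact h1
      · exact (mem_Ls.1 (x ^ q ^ k).2).2 r hr
    obtain ⟨i, hi⟩ := IsPGroup.iff_card.1 h1
    have h2 : (Ls ⁅M, M⁆ (insert q s)).relIndex (Ls ⁅M, M⁆ s) = q ^ i := hi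
    rw [h2]
    exact Nat.Coprime.pow_right _ (((Nat.Prime.coprime_iff_not_dvd hq).2 hZ2).symm)

theorem gt_finset [Finite G] (M : Subgroup G) [M.Normal] (s : Finset ℕ)
    (hs : ∀ q ∈ s, q.Prime ∧ AbS q G) (h : GoodTower (Ls ⁅M, M⁆ s)) : GoodTower ⁅M, M⁆ := by
  induction s using Finset.induction_on with
  | empty =>
    have h1 : Ls ⁅M, M⁆ ∅ = ⁅M, M⁆ := by
      ext x
      rw [mem_Ls]
      exact ⟨fun h => h.1, fun h => ⟨h, fun q hq => absurd hq (Finset.notMem_empty q)⟩⟩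
    rwa [h1] at h
  | insert q s hq ih =>
    refine ih (fun r hr => hs r (Finset.mem_insert_of_mem hr)) ?_
    exact gt_layer (fun r hr => (hs r (Finset.mem_insert_of_mem hr)).1)
      (hs q (Finset.mem_insert_self _ _)).1 hq (hs q (Finset.mem_insert_self _ _)).2 M h

theorem Ls_primeFactors [Finite G] (D : Subgroup G) [D.Normal] :
    Ls D (Nat.card D).primeFactors = ⁅D, D⁆ := by
  refine le_antisymm (fun x hx => ?_) (comm_le_Ls D _)
  rw [mem_Ls] at hx
  rw [← QuotientGroup.eq_one_iff, ← orderOf_eq_one_iff]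
  by_contra h
  obtain ⟨q, hq, hqd⟩ := Nat.exists_prime_and_dvd h
  have h1 : q ∣ Nat.card D := by
    have h2 : orderOf (QuotientGroup.mk (s := ⁅D, D⁆) x) ∣ orderOf (⟨x, hx.1⟩ : D) := by
      refine orderOf_dvd_of_pow_eq_one ?_
      rw [← QuotientGroup.mk_pow, QuotientGroup.eq_one_iff]
      have h3 : x ^ orderOf (⟨x, hx.1⟩ : D) = 1 :=
        congrArg Subtype.val (pow_orderOf_eq_one (⟨x, hx.1⟩ : D))
      rw [h3]
      exact Subgroup.one_mem _
    exact (hqd.trans h2).trans (orderOf_dvd_natCard _)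
  obtain ⟨-, n, hn, hxn⟩ := hx.2 q (Nat.mem_primeFactors.2 ⟨hq, h1, Nat.card_pos.ne'⟩)
  have h4 : q ∣ n := by
    refine hqd.trans (orderOf_dvd_of_pow_eq_one ?_)
    rw [← QuotientGroup.mk_pow, QuotientGroup.eq_one_iff]
    exact hxn
  have h5 : q ∣ Nat.gcd n q := Nat.dvd_gcd h4 dvd_rfl
  rw [hn] at h5
  exact hq.one_lt.ne' (Nat.dvd_one.1 h5)

/-- THE TOWER -/
theorem goodTower_comm [Finite G] (T : Subgroup G) [T.Normal] (hsol : Group.IsSolvable T)
    (hab : ∀ q : ℕ, q.Prime → q ∣ Nat.card (⁅T, T⁆ : Subgroup G) → AbS q G) :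
    GoodTower ⁅T, T⁆ := by
  obtain ⟨n, hn⟩ : ∃ n, n = Nat.card T := ⟨_, rfl⟩
  induction n using Nat.strong_induction_on generalizing T with
  | _ n ih =>
    by_cases hD : (⁅T, T⁆ : Subgroup G) = ⊥
    · rw [hD]
      exact gt_bot
    have hT : T ≠ ⊥ := by
      rintro rfl
      exact hD (le_bot_iff.1 (Subgroup.commutator_le_left _ _))
    have hlt : (⁅T, T⁆ : Subgroup G) < T := by
      have h1 : commutator T < ⊤ := by
        have : Nontrivial T := (Subgroup.nontrivial_iff_ne_bot _).2 hT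
        exact Group.IsSolvable.commutator_lt_top_of_nontrivial T
      have h2 : (commutator T).map T.subtype < (⊤ : Subgroup T).map T.subtype :=
        Subgroup.map_subtype_lt_map_subtype.2 h1
      rw [commutator_def, Subgroup.map_commutator, ← MonoidHom.range_eq_map,
        Subgroup.range_subtype] at h2
      exact h2
    have hcard : Nat.card (⁅T, T⁆ : Subgroup G) < n := by
      rw [hn]
      exact Set.ncard_lt_ncard (SetLike.coe_ssubset_coe.2 hlt) (Set.toFinite _)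
    have hsD : Group.IsSolvable (⁅T, T⁆ : Subgroup G) :=
      Group.isSolvable_of_isSolvable_injective (Subgroup.inclusion_injective hlt.le)
    have h3 : GoodTower ⁅(⁅T, T⁆ : Subgroup G), (⁅T, T⁆ : Subgroup G)⁆ := by
      refine ih _ hcard ⁅T, T⁆ hsD (fun q hq hqd => hab q hq (hqd.trans ?_)) rfl
      exact Subgroup.card_dvd_of_le (Subgroup.commutator_le_left _ _)
    refine gt_finset T (Nat.card (⁅T, T⁆ : Subgroup G)).primeFactors ?_ ?_
    · intro q hq
      have h4 := Nat.mem_primeFactors.1 hq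
      exact ⟨h4.1, hab q h4.1 h4.2.1⟩
    · rw [Ls_primeFactors]
      exact h3

end H71.GT
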