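import Mathlib

/-!
# [H71 GT AB] MP_b39724_nt, LowerBound v2: groups whose `q`-subgroups are commutative

* `AbS q G`: all `q`-subgroups of `G` are commutative. `abs_of_sylow`, `AbS.sub`, `AbS.quot`.
* `cen`: `z` central, in the commutator subgroup, of order a power of `q`: `z = 1` (transfer).
* `frat`: Frattini argument for a complement of a commutative normal subgroup.
-/

set_option autoImplicit false

open scoped Classical IsMulCommutative

noncomputable section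

namespace H71.GT

/-- all `q`-subgroups are commutative -/
def AbS (q : ℕ) (G : Type) [Group G] : Prop :=
  ∀ P : Subgroup G, IsPGroup q P → ∀ x ∈ P, ∀ y ∈ P, x * y = y * x

variable {G : Type} [Group G] {q : ℕ}

theorem abs_of_sylow [Finite G] [Fact q.Prime] (P : Sylow q G)
    (hP : ∀ x ∈ (P : Subgroup G), ∀ y ∈ (P : Subgroup G), x * y = y * x) : AbS q G := by
  intro Q hQ x hx y hy
  obtain ⟨P', hP'⟩ := hQ.exists_le_sylow
  obtain ⟨g, hg⟩ := MulAction.exists_smul_eq G P' P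
  have h1 : ∀ z ∈ Q, g * z * g⁻¹ ∈ (P : Subgroup G) := by
    intro z hz
    rw [← hg]
    exact Subgroup.smul_mem_pointwise_smul z (MulAut.conj g) (P' : Subgroup G) (hP' hz)
  have h2 := hP _ (h1 x hx) _ (h1 y hy)
  have h3 : g * (x * y) * g⁻¹ = g * (y * x) * g⁻¹ := by
    calc g * (x * y) * g⁻¹ = g * x * g⁻¹ * (g * y * g⁻¹) := by group
      _ = g * y * g⁻¹ * (g * x * g⁻¹) := h2
      _ = _ := by group
  exact mul_left_cancel (mul_right_cancel h3)

theorem AbS.sub (h : AbS q G) (H : Subgroup G) : AbS q H := by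
  intro P hP x hx y hy
  apply Subtype.ext
  exact h (P.map H.subtype) (hP.map _) x (Subgroup.mem_map_of_mem _ hx) y
    (Subgroup.mem_map_of_mem _ hy)

theorem AbS.quot [Finite G] [Fact q.Prime] (h : AbS q G) (R : Subgroup G) [R.Normal] :
    AbS q (G ⧸ R) := by
  obtain ⟨P⟩ : Nonempty (Sylow q G) := inferInstance
  refine abs_of_sylow (P.mapSurjective (QuotientGroup.mk'_surjective R)) ?_
  intro x hx y hy
  rw [Sylow.coe_mapSurjective] at hx hy
  obtain ⟨a, ha, rfl⟩ := hx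
  obtain ⟨b, hb, rfl⟩ := hy
  rw [← map_mul, ← map_mul, h P P.2 a ha b hb]

/-- transfer -/
theorem cen [Finite G] [Fact q.Prime] (hab : AbS q G) {z : G} (hz : ∀ g, g * z = z * g)
    (hc : z ∈ commutator G) {k : ℕ} (hk : z ^ q ^ k = 1) : z = 1 := by
  obtain ⟨P⟩ : Nonempty (Sylow q G) := inferInstance
  have hP : IsMulCommutative (P : Subgroup G) := ⟨⟨fun x y => Subtype.ext (hab P P.2 x x.2 y y.2)⟩⟩
  have key : ∀ (k : ℕ) (g₀ : G), g₀⁻¹ * z ^ k * g₀ ∈ (P : Subgroup G) →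
      g₀⁻¹ * z ^ k * g₀ = z ^ k := by
    intro k g₀ _
    have h1 : g₀ * z ^ k = z ^ k * g₀ := ((show Commute g₀ z from hz g₀).pow_right k)
    rw [mul_assoc, ← h1, inv_mul_cancel_left]
  have h2 := MonoidHom.transfer_eq_pow (MonoidHom.id (P : Subgroup G)) z key
  have h3 : MonoidHom.transfer (MonoidHom.id (P : Subgroup G)) z = 1 :=
    Abelianization.commutator_subset_ker _ hc
  rw [h3] at h2
  have h4 : z ^ (P : Subgroup G).index = 1 := (congrArg Subtype.val h2).symm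
  have h5 : Nat.Coprime (q ^ k) (P : Subgroup G).index :=
    Nat.Coprime.pow_left _ ((Nat.Prime.coprime_iff_not_dvd Fact.out).2 P.not_dvd_index)
  have h6 : orderOf z ∣ Nat.gcd (q ^ k) (P : Subgroup G).index :=
    Nat.dvd_gcd (orderOf_dvd_of_pow_eq_one hk) (orderOf_dvd_of_pow_eq_one h4)
  rw [h5, Nat.dvd_one, orderOf_eq_one_iff] at h6
  exact h6

/-- the Frattini argument -/
theorem frat [Finite G] (Y H B : Subgroup G) [Y.Normal] [B.Normal]
    (hYc : ∀ x ∈ Y, ∀ y ∈ Y, x * y = y * x) (hHB : H ≤ B) (hd : ∀ b ∈ B, ∃ y ∈ Y, ∃ h ∈ H, b = y * h)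
    (hYH : Y ⊓ H = ⊥) (hco : Nat.Coprime (Nat.card Y) (Nat.card H)) (g : G) :
    ∃ y ∈ Y, ∃ n ∈ (Subgroup.normalizer (H : Set G) : Subgroup G), g = y * n := by
  have hYi : IsMulCommutative Y := ⟨⟨fun x y => Subtype.ext (hYc x x.2 y y.2)⟩⟩
  have h1 : ∀ h : H, ∃ (y : Y) (h' : H), g * h * g⁻¹ = y * h' := by
    intro h
    obtain ⟨y, hy, h', hh', e⟩ := hd _ ((inferInstance : B.Normal).conj_mem _ (hHB h.2) g)
    exact ⟨⟨y, hy⟩, ⟨h', hh'⟩, e⟩
  choose f θ hf using h1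
  have huniq : ∀ (y y' : Y) (h h' : H), (y : G) * h = y' * h' → y = y' ∧ h = h' := by
    intro y y' h h' e
    have h2 : (y' : G)⁻¹ * (y : G) ∈ Y ⊓ H := by
      refine ⟨Y.mul_mem (Y.inv_mem y'.2) y.2, ?_⟩
      have h3 : (y' : G)⁻¹ * (y : G) = h' * (h : G)⁻¹ := by
        rw [inv_mul_eq_iff_eq_mul, ← mul_assoc, ← e, mul_inv_cancel_right]
      rw [h3]
      exact H.mul_mem h'.2 (H.inv_mem h.2)
    rw [hYH, Subgroup.mem_bot, inv_mul_eq_one] at h2
    have h4 : y = y' := Subtype.ext h2.symm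
    refine ⟨h4, ?_⟩
    rw [h4] at e
    exact Subtype.ext (mul_left_cancel e)
  -- the action
  obtain ⟨c, hc⟩ : ∃ c : G →* MulAut Y, ∀ (a : G) (y : Y), ((c a y : Y) : G) = a * y * a⁻¹ :=
    ⟨MulAut.conjNormal, fun a y => MulAut.conjNormal_apply a y⟩
  have hmul : ∀ a b : H, f (a * b) = f a * c (θ a) (f b) ∧ θ (a * b) = θ a * θ b := by
    intro a b
    refine huniq _ _ _ _ ?_
    rw [← hf, Subgroup.coe_mul, Subgroup.coe_mul, Subgroup.coe_mul, hc]
    have e1 : g * ((a : G) * b) * g⁻¹ = (g * a * g⁻¹) * (g * b * g⁻¹) := by group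
    rw [e1, hf, hf]
    group
  have : Fintype H := Fintype.ofFinite _
  obtain ⟨y, hy⟩ : ∃ y : Y, y = ∏ h : H, f h := ⟨_, rfl⟩
  have h5 : ∀ a : H, y = f a ^ Nat.card H * c (θ a) y := by
    intro a
    calc y = ∏ h : H, f (a * h) := by
          rw [hy]
          exact (Equiv.prod_comp (Equiv.mulLeft a) f).symm
      _ = ∏ h : H, (f a * c (θ a) (f h)) := Finset.prod_congr rfl fun h _ => (hmul a h).1
      _ = _ := by
          rw [Finset.prod_mul_distrib, Finset.prod_const, Finset.card_univ,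
            Nat.card_eq_fintype_card, ← map_prod, ← hy]
  obtain ⟨k, hk⟩ : ∃ k : ℕ, ∀ x : Y, x ^ (Nat.card H * k) = x := by
    rcases Nat.lt_or_ge 1 (Nat.card Y) with h7 | h7
    · obtain ⟨k, -, hk⟩ := Nat.exists_mul_mod_eq_one_of_coprime hco.symm h7
      refine ⟨k, fun x => ?_⟩
      rw [← Nat.div_add_mod (Nat.card H * k) (Nat.card Y), pow_add, pow_mul, pow_card_eq_one',
        one_pow, one_mul, hk, pow_one]
    · have h8 : Subsingleton Y := (Nat.card_eq_one_iff_unique.1 (le_antisymm h7 Nat.card_pos)).1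
      exact ⟨1, fun x => Subsingleton.elim _ _⟩
  have h9 : ∀ a : H, f a = y ^ k * (c (θ a) (y ^ k))⁻¹ := by
    intro a
    have h10 : f a ^ Nat.card H = y * (c (θ a) y)⁻¹ := by
      have h11 := h5 a
      rw [eq_mul_inv_iff_mul_eq]
      exact h11.symm
    rw [map_pow, ← inv_pow, ← mul_pow, ← h10, ← pow_mul, hk]
  refine ⟨(y ^ k : Y), (y ^ k).2, ((y ^ k : Y) : G)⁻¹ * g, ?_, by rw [mul_inv_cancel_left]⟩
  have h12 : ∀ h ∈ H, ((y ^ k : Y) : G)⁻¹ * g * h * (((y ^ k : Y) : G)⁻¹ * g)⁻¹ ∈ H := by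
    intro h hh
    have h13 := hf ⟨h, hh⟩
    rw [h9] at h13
    have h14 : ((y ^ k : Y) : G)⁻¹ * g * h * (((y ^ k : Y) : G)⁻¹ * g)⁻¹ = θ ⟨h, hh⟩ := by
      have h15 : ((y ^ k : Y) : G)⁻¹ * g * h * (((y ^ k : Y) : G)⁻¹ * g)⁻¹ =
          ((y ^ k : Y) : G)⁻¹ * (g * h * g⁻¹) * ((y ^ k : Y) : G) := by group
      rw [h15]
      rw [show (g * h * g⁻¹ : G) = _ from h13, Subgroup.coe_mul, Subgroup.coe_inv, hc]
      group
    rw [h14]
    exact (θ _).2
  have : Finite (H : Set G) := inferInstanceAs (Finite H)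
  exact Subgroup.mem_normalizer_fintype h12

end H71.GT
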