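import Pool.Agent.H71.GT.Ab

/-!
# [H71 GT SPL] MP_b39724_nt, LowerBound v2: the commutator subgroup of `M` is complemented

`G` finite, all `q`-subgroups commutative, `M` normal in `G`, `⁅M, M⁆` a `q`-group: it has a complement in `G` (`spl`): `B / ⁅M, M⁆` the `q'`-part of `M / ⁅M, M⁆`, `H` a complement of `⁅M, M⁆` in `B`,
the complement is the normaliser of `H`.
-/

set_option autoImplicit false

open scoped Classical IsMulCommutative commutatorElement

noncomputable section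

namespace H71.GT

variable {G : Type} [Group G] {q : ℕ}

theorem comm_pow_mem {Y : Subgroup G} [Y.Normal] {x y : G} (h : ⁅x, y⁆ ∈ Y) {k : ℕ}
    (hx : x ^ k ∈ Y) (hy : y ^ k ∈ Y) : (x * y) ^ k ∈ Y := by
  have h1 : Commute (QuotientGroup.mk' Y x) (QuotientGroup.mk' Y y) := by
    rw [← commutatorElement_eq_one_iff_commute, ← map_commutatorElement]
    exact (QuotientGroup.eq_one_iff _).2 h
  rw [← QuotientGroup.eq_one_iff] at hx hy ⊢
  have h2 : (QuotientGroup.mk' Y x * QuotientGroup.mk' Y y) ^ k = 1 := by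
    rw [h1.mul_pow]
    have h3 : QuotientGroup.mk' Y x ^ k = 1 := hx
    have h4 : QuotientGroup.mk' Y y ^ k = 1 := hy
    rw [h3, h4, one_mul]
  exact h2

/-- the `q'`-part of `M` modulo `Y` -/
def pp (q : ℕ) (M Y : Subgroup G) [Y.Normal] (hY : ⁅M, M⁆ ≤ Y) : Subgroup G where
  carrier := {x | x ∈ M ∧ ∃ n : ℕ, Nat.Coprime n q ∧ x ^ n ∈ Y}
  one_mem' := ⟨M.one_mem, 1, Nat.coprime_one_left q, by rw [one_pow]; exact Y.one_mem⟩
  mul_mem' := by
    rintro x y ⟨hx, n, hn, hxn⟩ ⟨hy, m, hm, hym⟩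
    refine ⟨M.mul_mem hx hy, n * m, Nat.Coprime.mul_left hn hm, ?_⟩
    refine comm_pow_mem (hY (Subgroup.commutator_mem_commutator hx hy)) ?_ ?_
    · rw [pow_mul]
      exact Y.pow_mem hxn m
    · rw [mul_comm, pow_mul]
      exact Y.pow_mem hym n
  inv_mem' := by
    rintro x ⟨hx, n, hn, hxn⟩
    refine ⟨M.inv_mem hx, n, hn, ?_⟩
    rw [inv_pow]
    exact Y.inv_mem hxn

theorem mem_pp {M Y : Subgroup G} [Y.Normal] {hY : ⁅M, M⁆ ≤ Y} {x : G} :
    x ∈ pp q M Y hY ↔ x ∈ M ∧ ∃ n : ℕ, Nat.Coprime n q ∧ x ^ n ∈ Y := Iff.rfl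

theorem pp_normal (M Y : Subgroup G) [M.Normal] [Y.Normal] (hY : ⁅M, M⁆ ≤ Y) :
    (pp q M Y hY).Normal := by
  refine ⟨?_⟩
  rintro x ⟨hx, n, hn, hxn⟩ g
  refine ⟨(inferInstance : M.Normal).conj_mem x hx g, n, hn, ?_⟩
  rw [conj_pow]
  exact (inferInstance : Y.Normal).conj_mem _ hxn g

theorem coprime_card_of {Q : Type} [Group Q] [Finite Q] [Fact q.Prime]
    (h : ∀ x : Q, ∃ n : ℕ, Nat.Coprime n q ∧ x ^ n = 1) : Nat.Coprime q (Nat.card Q) := by
  rw [Nat.Prime.coprime_iff_not_dvd Fact.out]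
  intro h1
  obtain ⟨x, hx⟩ := exists_prime_orderOf_dvd_card' q h1
  obtain ⟨n, hn, hxn⟩ := h x
  have h2 : q ∣ n := by
    rw [← hx]
    exact orderOf_dvd_of_pow_eq_one hxn
  have h3 : q ∣ Nat.gcd n q := Nat.dvd_gcd h2 dvd_rfl
  rw [hn] at h3
  exact (Fact.out : q.Prime).one_lt.ne' (Nat.dvd_one.1 h3)

theorem spl [Finite G] [Fact q.Prime] (hab : AbS q G) (M : Subgroup G) [M.Normal]
    (hY : IsPGroup q (⁅M, M⁆ : Subgroup G)) : ∃ C : Subgroup G, C ⊔ ⁅M, M⁆ = ⊤ ∧ C ⊓ ⁅M, M⁆ = ⊥ := by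
  have hq : q.Prime := Fact.out
  obtain ⟨Y, hYd⟩ : ∃ Y : Subgroup G, Y = ⁅M, M⁆ := ⟨_, rfl⟩
  have hYn : Y.Normal := by rw [hYd]; infer_instance
  rw [← hYd] at hY ⊢
  have hYM : Y ≤ M := by rw [hYd]; exact Subgroup.commutator_le_left M M
  obtain ⟨B, hB⟩ : ∃ B : Subgroup G, B = pp q M Y hYd.ge := ⟨_, rfl⟩
  have hBm : ∀ x, x ∈ B ↔ x ∈ M ∧ ∃ n : ℕ, Nat.Coprime n q ∧ x ^ n ∈ Y := fun x => by
    rw [hB]
    exact mem_pp
  have hBn : B.Normal := by rw [hB]; exact pp_normal M Y _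
  have hYB : Y ≤ B := fun x hx => (hBm x).2 ⟨hYM hx, 1, Nat.coprime_one_left q, by rwa [pow_one]⟩
  have hBM : B ≤ M := fun x hx => ((hBm x).1 hx).1
  have hYc : ∀ x ∈ Y, ∀ y ∈ Y, x * y = y * x := hab Y hY
  -- the complement in `B`
  obtain ⟨j, hj⟩ := IsPGroup.iff_card.1 hY
  have hcY : Nat.card (Y.subgroupOf B) = q ^ j := by
    rw [← hj]
    exact Nat.card_congr (Subgroup.subgroupOfEquivOfLe hYB).toEquiv
  have hco1 : Nat.Coprime q (Y.subgroupOf B).index := by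
    rw [Subgroup.index]
    refine coprime_card_of fun x => ?_
    obtain ⟨b, rfl⟩ := QuotientGroup.mk_surjective x
    obtain ⟨-, n, hn, hbn⟩ := (hBm b).1 b.2
    refine ⟨n, hn, ?_⟩
    rw [← QuotientGroup.mk_pow, QuotientGroup.eq_one_iff, Subgroup.mem_subgroupOf]
    exact hbn
  obtain ⟨H', hH'⟩ := Subgroup.exists_right_complement'_of_coprime
    (N := Y.subgroupOf B) (by rw [hcY]; exact Nat.Coprime.pow_left _ hco1)
  obtain ⟨H, hH⟩ : ∃ H : Subgroup G, H = H'.map B.subtype := ⟨_, rfl⟩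
  have hHB : H ≤ B := by rw [hH]; exact Subgroup.map_subtype_le H'
  have hd : ∀ b ∈ B, ∃ y ∈ Y, ∃ h ∈ H, b = y * h := by
    intro b hb
    obtain ⟨⟨y, h⟩, e⟩ := hH'.2 ⟨b, hb⟩
    refine ⟨(y : B), y.2, (h : B), ?_, (congrArg Subtype.val e).symm⟩
    rw [hH]
    exact Subgroup.mem_map_of_mem _ h.2
  have hYH : Y ⊓ H = ⊥ := by
    rw [Subgroup.eq_bot_iff_forall]
    rintro x ⟨hx, hx2⟩
    rw [hH] at hx2
    obtain ⟨b, hb, rfl⟩ := hx2
    have h1 : b ∈ Y.subgroupOf B ⊓ H' := ⟨hx, hb⟩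
    rw [hH'.disjoint.eq_bot, Subgroup.mem_bot] at h1
    rw [h1]
    rfl
  have hcH : Nat.Coprime (Nat.card Y) (Nat.card H) := by
    have h1 : Nat.card H = (Y.subgroupOf B).index := by
      rw [hH'.symm.index_eq_card, hH]
      exact (Nat.card_congr (H'.equivMapOfInjective _ (Subgroup.subtype_injective B)).toEquiv).symm
    rw [h1, hj]
    exact Nat.Coprime.pow_left _ hco1
  refine ⟨Subgroup.normalizer (H : Set G), ?_, ?_⟩
  · rw [eq_top_iff]
    intro g _
    obtain ⟨y, hy, n, hn, rfl⟩ := frat Y H B hYc hHB hd hYH hcH g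
    exact Subgroup.mul_mem _ (Subgroup.mem_sup_right hy) (Subgroup.mem_sup_left hn)
  · rw [Subgroup.eq_bot_iff_forall]
    rintro n ⟨hn, hnY⟩
    have hnH : ∀ h ∈ H, h * n = n * h := by
      intro h hh
      have h1 : n * h * n⁻¹ * h⁻¹ ∈ Y ⊓ H := by
        refine ⟨?_, H.mul_mem ((Subgroup.mem_normalizer_iff.1 hn h).1 hh) (H.inv_mem hh)⟩
        have h2 : n * h * n⁻¹ * h⁻¹ = n * (h * n⁻¹ * h⁻¹) := by group
        rw [h2]
        exact Y.mul_mem hnY (hYn.conj_mem _ (Y.inv_mem hnY) h)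
      rw [hYH, Subgroup.mem_bot] at h1
      have h3 : n * h = h * n := by
        have h4 : n * h * n⁻¹ = h := by
          rw [← mul_inv_eq_one]
          exact h1
        calc n * h = n * h * n⁻¹ * n := by group
          _ = h * n := by rw [h4]
      exact h3.symm
    -- in the group `M`
    obtain ⟨z, hz⟩ : ∃ z : M, (z : G) = n := ⟨⟨n, hYM hnY⟩, rfl⟩
    have habM : AbS q M := hab.sub M
    obtain ⟨P⟩ : Nonempty (Sylow q M) := inferInstance
    have hYMn : (Y.subgroupOf M).Normal := inferInstance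
    have hYMp : IsPGroup q (Y.subgroupOf M) := hY.comap_of_injective M.subtype (Subgroup.subtype_injective M)
    have hzP : z ∈ (P : Subgroup M) := by
      have h0 : (P : Subgroup M) ⊔ Y.subgroupOf M = P :=
        P.is_maximal' (IsPGroup.to_sup_of_normal_right P.2 hYMp) le_sup_left
      have h1 : Y.subgroupOf M ≤ (P : Subgroup M) := by
        rw [← h0]
        exact le_sup_right
      exact h1 (Subgroup.mem_subgroupOf.2 (by rw [hz]; exact hnY))
    obtain ⟨Cz, hCz⟩ : ∃ Cz : Subgroup M, Cz = Subgroup.centralizer {z} := ⟨_, rfl⟩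
    have hmC : ∀ g : M, g ∈ Cz ↔ g * z = z * g := fun g => by
      rw [hCz, Subgroup.mem_centralizer_singleton_iff]
    have hPC : (P : Subgroup M) ≤ Cz := fun g hg => (hmC g).2 (habM P P.2 g hg z hzP)
    have hBC : B.subgroupOf M ≤ Cz := by
      intro g hg
      rw [hmC]
      apply Subtype.ext
      rw [Subgroup.coe_mul, Subgroup.coe_mul, hz]
      obtain ⟨y, hy, h, hh, e⟩ := hd g (Subgroup.mem_subgroupOf.1 hg)
      rw [e, mul_assoc, hnH h hh, ← mul_assoc, hYc y hy n hnY, mul_assoc]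
    have hBp : IsPGroup q (M ⧸ B.subgroupOf M) := by
      intro x
      obtain ⟨g, rfl⟩ := QuotientGroup.mk_surjective x
      have hN : orderOf (QuotientGroup.mk (s := Y) (g : G)) ≠ 0 := (orderOf_pos _).ne'
      obtain ⟨k, n', hn', hk⟩ := Nat.exists_eq_pow_mul_and_not_dvd hN q hq.one_lt.ne'
      refine ⟨k, ?_⟩
      rw [← QuotientGroup.mk_pow, QuotientGroup.eq_one_iff, Subgroup.mem_subgroupOf, hBm]
      refine ⟨(g ^ q ^ k).2, n', ?_, ?_⟩
      · rw [Nat.coprime_comm]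
        exact (Nat.Prime.coprime_iff_not_dvd hq).2 hn'
      · rw [Subgroup.coe_pow, ← pow_mul, ← QuotientGroup.eq_one_iff, QuotientGroup.mk_pow, ← hk]
        exact pow_orderOf_eq_one _
    obtain ⟨i, hi⟩ := IsPGroup.iff_card.1 hBp
    have h1 : Cz.index ∣ q ^ i := by
      rw [← hi]
      exact Subgroup.index_dvd_of_le hBC
    have h2 : Cz.index ∣ (P : Subgroup M).index := Subgroup.index_dvd_of_le hPC
    have h3 : Cz.index ∣ Nat.gcd (q ^ i) (P : Subgroup M).index := Nat.dvd_gcd h1 h2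
    have h4 : Nat.Coprime (q ^ i) (P : Subgroup M).index :=
      Nat.Coprime.pow_left _ ((Nat.Prime.coprime_iff_not_dvd hq).2 P.not_dvd_index)
    rw [h4, Nat.dvd_one, Subgroup.index_eq_one] at h3
    have h5 : ∀ g : M, g * z = z * g := fun g => (hmC g).1 (by rw [h3]; exact Subgroup.mem_top g)
    have h6 : z ∈ commutator M := by
      have h7 : (z : G) ∈ (commutator M).map M.subtype := by
        rw [commutator_def, Subgroup.map_commutator, ← MonoidHom.range_eq_map,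
          Subgroup.range_subtype, ← hYd, hz]
        exact hnY
      obtain ⟨u, hu, hu2⟩ := h7
      have h8 : u = z := Subtype.ext hu2
      rwa [← h8]
    have h9 : z ^ q ^ j = 1 := by
      apply Subtype.ext
      rw [Subgroup.coe_pow, hz, Subgroup.coe_one]
      have h10 : (⟨n, hnY⟩ : Y) ^ Nat.card Y = 1 := pow_card_eq_one'
      rw [hj] at h10
      exact congrArg Subtype.val h10
    have h11 := cen habM h5 h6 h9
    rw [← hz, h11, Subgroup.coe_one]

end H71.GT
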